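import Mathlib

set_option autoImplicit false

namespace Pool.Agent.Helper830.KW

open Finset Classical

variable {V : Type*}

/-- number of neighbours of `v` inside `A` -/
noncomputable def dg (F : SimpleGraph V) (A : Finset V) (v : V) : ℕ :=
  (A.filter (fun w => F.Adj v w)).card

/-- independent set -/
def Ind (F : SimpleGraph V) (I : Finset V) : Prop := ∀ x ∈ I, ∀ y ∈ I, ¬ F.Adj x y

/-- number of independent `n`-subsets of `A` -/
noncomputable def ic (F : SimpleGraph V) (A : Finset V) (n : ℕ) : ℕ :=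
  ((A.powersetCard n).filter (fun I => Ind F I)).card
theorem ic_rec (F : SimpleGraph V) (A : Finset V) (n : ℕ) (v : V) (hv : v ∈ A) :
    ic F A (n+1) ≤ ic F (A.erase v) (n+1)
      + ic F ((A.erase v).filter (fun w => ¬ F.Adj v w)) n := by
  unfold ic
  rw [← Finset.card_filter_add_card_filter_not (s := (A.powersetCard (n+1)).filter (fun I => Ind F I)) (fun I => v ∉ I)]
  apply Nat.add_le_add
  · apply Finset.card_le_card
    intro I hI
    simp only [Finset.mem_filter, Finset.mem_powersetCard] at hI ⊢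
    obtain ⟨⟨⟨h1, h2⟩, h3⟩, h4⟩ := hI
    refine ⟨⟨?_, h2⟩, h3⟩
    intro x hx
    rw [Finset.mem_erase]
    exact ⟨fun h => h4 (h ▸ hx), h1 hx⟩
  · apply Finset.card_le_card_of_injOn (fun I => I.erase v)
    · intro I hI
      simp only [Finset.coe_filter, Set.mem_setOf_eq, Finset.mem_filter, Finset.mem_powersetCard, not_not] at hI ⊢
      obtain ⟨⟨⟨h1, h2⟩, h3⟩, h4⟩ := hI
      refine ⟨⟨?_, ?_⟩, ?_⟩
      · intro x hx
        rw [Finset.mem_erase] at hx
        rw [Finset.mem_filter, Finset.mem_erase]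
        exact ⟨⟨hx.1, h1 hx.2⟩, h3 v h4 x hx.2⟩
      · rw [Finset.card_erase_of_mem h4, h2]; rfl
      · intro x hx y hy
        rw [Finset.mem_erase] at hx hy
        exact h3 x hx.2 y hy.2
    · intro I hI J hJ h
      simp only [Finset.coe_filter, Set.mem_setOf_eq, not_not] at hI hJ
      have h' : I.erase v = J.erase v := h
      rw [← Finset.insert_erase hI.2, ← Finset.insert_erase hJ.2, h']

theorem dc (F : SimpleGraph V) (A : Finset V) (n s : ℕ) (hns : n ≤ s) (hs : s ≤ A.card)
    (h : ∀ S, S ⊆ A → S.card = s → ∃ I, I ⊆ S ∧ I.card = n ∧ Ind F I) :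
    A.card.choose n ≤ ic F A n * s.choose n := by
  have h1 : A.card.choose s ≤ ic F A n * (A.card - n).choose (s - n) := by
    have hsub : A.powersetCard s ⊆ ((A.powersetCard n).filter (fun I => Ind F I)).biUnion
        (fun I => (A.powersetCard s).filter (fun S => I ⊆ S)) := by
      intro S hS
      obtain ⟨hSA, hSc⟩ := Finset.mem_powersetCard.mp hS
      obtain ⟨I, hIS, hIc, hInd⟩ := h S hSA hSc
      rw [Finset.mem_biUnion]
      refine ⟨I, ?_, ?_⟩
      · rw [Finset.mem_filter, Finset.mem_powersetCard]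
        exact ⟨⟨hIS.trans hSA, hIc⟩, hInd⟩
      · rw [Finset.mem_filter]
        exact ⟨hS, hIS⟩
    calc A.card.choose s = (A.powersetCard s).card := (Finset.card_powersetCard _ _).symm
      _ ≤ _ := Finset.card_le_card hsub
      _ ≤ ((A.powersetCard n).filter (fun I => Ind F I)).card * (A.card - n).choose (s - n) := by
        apply Finset.card_biUnion_le_card_mul
        intro I hI
        rw [Finset.mem_filter, Finset.mem_powersetCard] at hI
        obtain ⟨⟨hIA, hIc⟩, _⟩ := hI
        have h2 : (A.card - n).choose (s - n) = ((A \ I).powersetCard (s - n)).card := by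
          rw [Finset.card_powersetCard, Finset.card_sdiff_of_subset hIA, hIc]
        rw [h2]
        apply Finset.card_le_card_of_injOn (fun S => S \ I)
        · intro S hS
          have hS' := Finset.mem_filter.mp (Finset.mem_coe.mp hS)
          obtain ⟨hSA, hSc⟩ := Finset.mem_powersetCard.mp hS'.1
          apply Finset.mem_coe.mpr
          rw [Finset.mem_powersetCard]
          refine ⟨Finset.sdiff_subset_sdiff hSA (Finset.Subset.refl _), ?_⟩
          rw [Finset.card_sdiff_of_subset hS'.2, hSc, hIc]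
        · intro S hS S' hS' heq
          have e1 := (Finset.mem_filter.mp (Finset.mem_coe.mp hS)).2
          have e2 := (Finset.mem_filter.mp (Finset.mem_coe.mp hS')).2
          have e3 : S \ I = S' \ I := heq
          rw [← Finset.sdiff_union_of_subset e1, ← Finset.sdiff_union_of_subset e2, e3]
      _ = _ := rfl
  have hC : 0 < (A.card - n).choose (s - n) := Nat.choose_pos (by omega)
  have h2 := Nat.choose_mul (n := A.card) hns
  have h3 : A.card.choose n * (A.card - n).choose (s - n) ≤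
      ic F A n * s.choose n * (A.card - n).choose (s - n) := by
    rw [← h2]
    calc A.card.choose s * s.choose n ≤ ic F A n * (A.card - n).choose (s - n) * s.choose n :=
          Nat.mul_le_mul_right _ h1
      _ = _ := by ring
  exact Nat.le_of_mul_le_mul_right h3 hC

theorem greedy_aux (F : SimpleGraph V) (A : Finset V) (p g : ℕ) (H : SimpleGraph (Fin p))
    (hH : ∀ S : Finset (Fin p), S.Nonempty → ∃ v ∈ S, (S.filter (fun w => H.Adj v w)).card ≤ g)
    (hp : 2 * p ≤ A.card) (hpos : 0 < p)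
    (hA : ∀ v ∈ A, 2 * (g + 1) * dg F A v < A.card) (k : ℕ) :
    ∀ S : Finset (Fin p), S.card = k → ∃ f : Fin p → V, (∀ v ∈ S, f v ∈ A) ∧
      (∀ u ∈ S, ∀ v ∈ S, f u = f v → u = v) ∧
      ∀ u ∈ S, ∀ v ∈ S, H.Adj u v → ¬ F.Adj (f u) (f v) := by
  induction k with
  | zero =>
    intro S hS
    have hne : A.Nonempty := by
      rw [← Finset.card_pos]
      omega
    obtain ⟨a, _⟩ := hne
    rw [Finset.card_eq_zero] at hS
    subst hS
    exact ⟨fun _ => a, by simp, by simp, by simp⟩
  | succ k ih =>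
    intro S hS
    have hSne : S.Nonempty := by
      rw [← Finset.card_pos]
      omega
    obtain ⟨v, hv, hvg⟩ := hH S hSne
    obtain ⟨f, hf1, hf2, hf3⟩ := ih (S.erase v) (by rw [Finset.card_erase_of_mem hv]; omega)
    have hApos : 0 < A.card := by omega
    have hTcard : 2 * (S.erase v).card < A.card := by
      have h1 : S.card ≤ p := by
        have := Finset.card_le_univ S
        rwa [Fintype.card_fin] at this
      rw [Finset.card_erase_of_mem hv]
      have h2 : 0 < S.card := Finset.card_pos.2 hSne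
      omega
    have hNmem : ∀ u ∈ S.filter (fun w => H.Adj v w), u ∈ S.erase v := by
      intro u hu
      rw [Finset.mem_filter] at hu
      exact Finset.mem_erase.2 ⟨hu.2.ne', hu.1⟩
    have hsum : 2 * ∑ u ∈ S.filter (fun w => H.Adj v w), dg F A (f u) < A.card := by
      have h1 : 2 * (g + 1) * ∑ u ∈ S.filter (fun w => H.Adj v w), dg F A (f u) ≤
          g * A.card := by
        rw [Finset.mul_sum]
        calc ∑ u ∈ S.filter (fun w => H.Adj v w), 2 * (g + 1) * dg F A (f u)
            ≤ ∑ _u ∈ S.filter (fun w => H.Adj v w), A.card :=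
              Finset.sum_le_sum fun u hu => (hA _ (hf1 u (hNmem u hu))).le
          _ = (S.filter (fun w => H.Adj v w)).card * A.card := by
              rw [Finset.sum_const, smul_eq_mul]
          _ ≤ g * A.card := Nat.mul_le_mul_right _ hvg
      have h2 : (g + 1) * (2 * ∑ u ∈ S.filter (fun w => H.Adj v w), dg F A (f u)) <
          (g + 1) * A.card := by
        calc (g + 1) * (2 * ∑ u ∈ S.filter (fun w => H.Adj v w), dg F A (f u)) =
            2 * (g + 1) * ∑ u ∈ S.filter (fun w => H.Adj v w), dg F A (f u) := by ring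
          _ ≤ g * A.card := h1
          _ < (g + 1) * A.card := by nlinarith
      exact lt_of_mul_lt_mul_left h2 (Nat.zero_le _)
    obtain ⟨x, hxA, hxB⟩ := Finset.exists_mem_notMem_of_card_lt_card
      (s := (S.erase v).image f ∪ (S.filter (fun w => H.Adj v w)).biUnion
        (fun u => A.filter (fun w => F.Adj (f u) w))) (t := A) (by
      calc ((S.erase v).image f ∪ (S.filter (fun w => H.Adj v w)).biUnion
          (fun u => A.filter (fun w => F.Adj (f u) w))).card
          ≤ ((S.erase v).image f).card + ((S.filter (fun w => H.Adj v w)).biUnion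
          (fun u => A.filter (fun w => F.Adj (f u) w))).card := Finset.card_union_le _ _
        _ ≤ (S.erase v).card + ∑ u ∈ S.filter (fun w => H.Adj v w), dg F A (f u) :=
          add_le_add Finset.card_image_le Finset.card_biUnion_le
        _ < A.card := by omega)
    rw [Finset.mem_union, not_or] at hxB
    obtain ⟨hx1, hx2⟩ := hxB
    have hx1' : ∀ u ∈ S, u ≠ v → f u ≠ x := by
      intro u hu huv h
      exact hx1 (Finset.mem_image.2 ⟨u, Finset.mem_erase.2 ⟨huv, hu⟩, h⟩)
    have hx2' : ∀ u ∈ S, H.Adj v u → ¬ F.Adj (f u) x := by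
      intro u hu hvu h
      exact hx2 (Finset.mem_biUnion.2 ⟨u, Finset.mem_filter.2 ⟨hu, hvu⟩,
        Finset.mem_filter.2 ⟨hxA, h⟩⟩)
    refine ⟨Function.update f v x, ?_, ?_, ?_⟩
    · intro u hu
      by_cases huv : u = v
      · rw [huv, Function.update_self]
        exact hxA
      · rw [Function.update_of_ne huv]
        exact hf1 u (Finset.mem_erase.2 ⟨huv, hu⟩)
    · intro u hu w hw h
      by_cases huv : u = v
      · by_cases hwv : w = v
        · rw [huv, hwv]
        · rw [huv, Function.update_self, Function.update_of_ne hwv] at h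
          exact absurd h.symm (hx1' w hw hwv)
      · by_cases hwv : w = v
        · rw [hwv, Function.update_self, Function.update_of_ne huv] at h
          exact absurd h (hx1' u hu huv)
        · rw [Function.update_of_ne huv, Function.update_of_ne hwv] at h
          exact hf2 u (Finset.mem_erase.2 ⟨huv, hu⟩) w (Finset.mem_erase.2 ⟨hwv, hw⟩) h
    · intro u hu w hw hadj
      by_cases huv : u = v
      · have hwv : w ≠ v := by
          rw [huv] at hadj
          exact hadj.ne'
        rw [huv, Function.update_self, Function.update_of_ne hwv]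
        rw [huv] at hadj
        intro h
        exact hx2' w hw hadj h.symm
      · by_cases hwv : w = v
        · rw [hwv, Function.update_self, Function.update_of_ne huv]
          rw [hwv] at hadj
          exact hx2' u hu hadj.symm
        · rw [Function.update_of_ne huv, Function.update_of_ne hwv]
          exact hf3 u (Finset.mem_erase.2 ⟨huv, hu⟩) w (Finset.mem_erase.2 ⟨hwv, hw⟩) hadj

theorem greedy (F : SimpleGraph V) (A : Finset V) (p g : ℕ) (H : SimpleGraph (Fin p))
    (hH : ∀ S : Finset (Fin p), S.Nonempty → ∃ v ∈ S, (S.filter (fun w => H.Adj v w)).card ≤ g)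
    (hp : 2 * p ≤ A.card) (hpos : 0 < p)
    (hA : ∀ v ∈ A, 2 * (g + 1) * dg F A v < A.card) :
    H.IsContained Fᶜ := by
  obtain ⟨f, _, hf2, hf3⟩ := greedy_aux F A p g H hH hp hpos hA _ Finset.univ rfl
  have hinj : Function.Injective f := fun u v h =>
    hf2 u (Finset.mem_univ _) v (Finset.mem_univ _) h
  refine ⟨⟨⟨f, ?_⟩, hinj⟩⟩
  intro u v huv
  rw [SimpleGraph.compl_adj]
  exact ⟨fun h => huv.ne (hinj h), hf3 u (Finset.mem_univ _) v (Finset.mem_univ _) huv⟩

theorem est (N R n t : ℕ) (hRN : R ≤ N) (htn : t ≤ n) :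
    n.factorial * (∑ j ∈ range (t+1), N.choose j * (if j ≤ n then R.choose (n-j) else 0))
      ≤ 2^n * (N^t * R^(n-t)) := by
  have hch : ∀ M j : ℕ, j.factorial * M.choose j ≤ M ^ j := by
    intro M j
    rw [← Nat.descFactorial_eq_factorial_mul_choose]
    exact Nat.descFactorial_le_pow M j
  have h1 : ∀ j ∈ range (t+1), n.factorial * (N.choose j * (if j ≤ n then R.choose (n-j) else 0)) ≤
      n.choose j * (N^t * R^(n-t)) := by
    intro j hj
    rw [mem_range] at hj
    have hjn : j ≤ n := by omega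
    rw [if_pos hjn, ← Nat.choose_mul_factorial_mul_factorial hjn]
    have h2 : N ^ j * R ^ (n - j) ≤ N ^ t * R ^ (n - t) := by
      have e1 : n - j = (t - j) + (n - t) := by omega
      have e2 : t = j + (t - j) := by omega
      calc N ^ j * R ^ (n - j) = N ^ j * R ^ (t - j) * R ^ (n - t) := by
            rw [e1, pow_add, mul_assoc]
        _ ≤ N ^ j * N ^ (t - j) * R ^ (n - t) := by gcongr
        _ = N ^ t * R ^ (n - t) := by rw [← pow_add, ← e2]
    calc n.choose j * j.factorial * (n - j).factorial * (N.choose j * R.choose (n - j))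
        = n.choose j * ((j.factorial * N.choose j) * ((n - j).factorial * R.choose (n - j))) := by
          ring
      _ ≤ n.choose j * (N ^ j * R ^ (n - j)) :=
          Nat.mul_le_mul_left _ (Nat.mul_le_mul (hch N j) (hch R (n - j)))
      _ ≤ n.choose j * (N^t * R^(n-t)) := Nat.mul_le_mul_left _ h2
  rw [mul_sum]
  refine (sum_le_sum h1).trans ?_
  rw [← sum_mul]
  apply Nat.mul_le_mul_right
  rw [← Nat.sum_range_choose]
  exact sum_le_sum_of_subset (range_subset_range.2 (by omega))

theorem arith_fact (n : ℕ) : n ^ n ≤ 3 ^ n * n.factorial := by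
  have h := Real.pow_div_factorial_le_exp (n : ℝ) (Nat.cast_nonneg n) n
  have h1 : Real.exp (n : ℝ) ≤ 3 ^ n := by
    have h2 : Real.exp (n : ℝ) = Real.exp 1 ^ n := by
      rw [← Real.exp_nat_mul, mul_one]
    rw [h2]
    exact pow_le_pow_left₀ (Real.exp_pos _).le (by linarith [Real.exp_one_lt_d9]) n
  have h3 : (0 : ℝ) < n.factorial := by exact_mod_cast n.factorial_pos
  rw [div_le_iff₀ h3] at h
  have h4 : (n : ℝ) ^ n ≤ 3 ^ n * n.factorial :=
    h.trans (mul_le_mul_of_nonneg_right h1 h3.le)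
  exact_mod_cast h4

theorem arith (C N R n t m ρ X : ℕ) (hn : 1 ≤ n) (hm : 1 ≤ m) (hntm : n = t * m)
    (hN : N = ρ * R) (hR : 1 ≤ R) (hρ2 : ρ ≤ 2^m) (h2n : 2 * n ≤ N) (hρ : 24 * C * n < ρ)
    (hX1 : n.factorial * X ≤ 2^n * (N^t * R^(n-t)))
    (hX2 : N.choose n ≤ X * (C * n^2).choose n) : False := by
  have ht : t ≤ n := by rw [hntm]; exact Nat.le_mul_of_pos_right t hm
  -- lower bound for the left side
  have a1 : (N + 1 - n) ^ n ≤ n.factorial * N.choose n := by
    rw [← Nat.descFactorial_eq_factorial_mul_choose]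
    exact Nat.pow_sub_le_descFactorial N n
  have a2 : n.factorial * (C * n ^ 2).choose n ≤ (C * n ^ 2) ^ n := by
    rw [← Nat.descFactorial_eq_factorial_mul_choose]
    exact Nat.descFactorial_le_pow _ _
  have a3 := arith_fact n
  have a4 : N ^ n ≤ (2 * (N + 1 - n)) ^ n := Nat.pow_le_pow_left (by omega) n
  -- combine
  have b1 : n ^ n * N ^ n ≤ 6 ^ n * (n.factorial * (n.factorial * N.choose n)) := by
    calc n ^ n * N ^ n ≤ (3 ^ n * n.factorial) * (2 * (N + 1 - n)) ^ n := Nat.mul_le_mul a3 a4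
      _ = 6 ^ n * (n.factorial * (N + 1 - n) ^ n) := by
          rw [mul_pow, show (6 : ℕ) = 3 * 2 from rfl, mul_pow]; ring
      _ ≤ 6 ^ n * (n.factorial * (n.factorial * N.choose n)) :=
          Nat.mul_le_mul_left _ (Nat.mul_le_mul_left _ a1)
  have b2 : n.factorial * (n.factorial * N.choose n)
      ≤ (2 ^ n * (N ^ t * R ^ (n - t))) * (C * n ^ 2) ^ n := by
    calc n.factorial * (n.factorial * N.choose n)
        ≤ n.factorial * (n.factorial * (X * (C * n ^ 2).choose n)) :=
          Nat.mul_le_mul_left _ (Nat.mul_le_mul_left _ hX2)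
      _ = (n.factorial * X) * (n.factorial * (C * n ^ 2).choose n) := by ring
      _ ≤ (2 ^ n * (N ^ t * R ^ (n - t))) * (C * n ^ 2) ^ n := Nat.mul_le_mul hX1 a2
  have b3 : n ^ n * N ^ n ≤ n ^ n * ((12 * C * n) ^ n * (N ^ t * R ^ (n - t))) := by
    refine (b1.trans (Nat.mul_le_mul_left _ b2)).trans (le_of_eq ?_)
    have e1 : (12 * C * n) ^ n = 6 ^ n * 2 ^ n * C ^ n * n ^ n := by
      rw [show 12 * C * n = 6 * 2 * C * n by ring, mul_pow, mul_pow, mul_pow]
    have e2 : (C * n ^ 2) ^ n = C ^ n * n ^ n * n ^ n := by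
      rw [mul_pow, ← pow_mul, mul_assoc, ← pow_add, two_mul]
    rw [e1, e2]; ring
  have hnn : 0 < n ^ n := Nat.pow_pos hn
  have b4 : N ^ n ≤ (12 * C * n) ^ n * (N ^ t * R ^ (n - t)) := Nat.le_of_mul_le_mul_left b3 hnn
  have b5 : ρ ^ n * R ^ n ≤ ((12 * C * n) ^ n * ρ ^ t) * R ^ n := by
    have e1 : N ^ t * R ^ (n - t) = ρ ^ t * R ^ n := by
      rw [hN, mul_pow, mul_assoc, ← pow_add, Nat.add_sub_cancel' ht]
    rw [e1] at b4
    rw [hN, mul_pow] at b4
    refine b4.trans (le_of_eq ?_)
    ring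
  have hRn : 0 < R ^ n := Nat.pow_pos hR
  have b6 : ρ ^ n ≤ (12 * C * n) ^ n * ρ ^ t := Nat.le_of_mul_le_mul_right b5 hRn
  have b7 : ρ ^ t ≤ 2 ^ n := by
    calc ρ ^ t ≤ (2 ^ m) ^ t := Nat.pow_le_pow_left hρ2 t
      _ = 2 ^ n := by rw [← pow_mul, hntm, mul_comm]
  have b8 : ρ ^ n ≤ (24 * C * n) ^ n := by
    calc ρ ^ n ≤ (12 * C * n) ^ n * 2 ^ n := b6.trans (Nat.mul_le_mul_left _ b7)
      _ = (24 * C * n) ^ n := by rw [← mul_pow]; congr 1; ring
  have b9 : (24 * C * n) ^ n < ρ ^ n := Nat.pow_lt_pow_left hρ (by omega)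
  omega


theorem hypInd {k N : ℕ} (G : SimpleGraph (Fin k)) (C n : ℕ)
    (hG : ∀ N : ℕ, C * n ^ 2 ≤ N → ∀ F : SimpleGraph (Fin N),
          G.IsContained F ∨ (⊤ : SimpleGraph (Fin n)).IsContained Fᶜ)
    (F : SimpleGraph (Fin N)) (hF : ¬ G.IsContained F) (S : Finset (Fin N))
    (hS : C * n^2 ≤ S.card) : ∃ I, I ⊆ S ∧ I.card = n ∧ Ind F I := by
  
  let g : Fin S.card ↪ Fin N := (S.orderEmbOfFin rfl).toEmbedding
  have hgS : ∀ i, g i ∈ S := fun i => S.orderEmbOfFin_mem rfl i
  rcases hG S.card hS (F.comap g) with h | h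
  · exfalso
    apply hF
    exact h.trans ⟨(SimpleGraph.Embedding.comap g F).toCopy⟩
  · obtain ⟨φ⟩ := h
    refine ⟨(univ : Finset (Fin n)).image (fun i => g (φ i)), ?_, ?_, ?_⟩
    · intro x hx
      obtain ⟨i, -, rfl⟩ := mem_image.1 hx
      exact hgS _
    · rw [card_image_of_injective, card_univ, Fintype.card_fin]
      intro i j hij
      exact φ.injective (g.injective hij)
    · intro x hx y hy
      obtain ⟨i, -, rfl⟩ := mem_image.1 hx
      obtain ⟨j, -, rfl⟩ := mem_image.1 hy
      by_cases hij : i = j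
      · subst hij
        exact F.loopless.irrefl _
      · have h1 : (F.comap g)ᶜ.Adj (φ i) (φ j) := φ.toHom.map_adj hij
        rw [SimpleGraph.compl_adj] at h1
        exact h1.2


theorem params1 (g κ lam : ℕ) (hlam : lam = Nat.log 2 (g+2)) :
    1 ≤ lam ∧ 2^κ * ((g+1) * lam^2) ≤ 2^((κ+4)*lam) := by
  have h1 : 1 ≤ lam := by
    rw [hlam]
    exact Nat.log_pos (by norm_num) (by omega)
  refine ⟨h1, ?_⟩
  have h2 : g + 2 < 2 ^ (lam + 1) := by
    rw [hlam]
    exact Nat.lt_pow_succ_log_self (by norm_num) _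
  have h3 : g + 1 ≤ 2 ^ (2 * lam) := by
    have : 2 ^ (lam + 1) ≤ 2 ^ (2 * lam) := Nat.pow_le_pow_right (by norm_num) (by omega)
    omega
  have h4 : lam ≤ 2 ^ lam := Nat.lt_two_pow_self.le
  have h5 : lam ^ 2 ≤ 2 ^ (2 * lam) := by
    calc lam ^ 2 ≤ (2 ^ lam) ^ 2 := Nat.pow_le_pow_left h4 2
      _ = 2 ^ (2 * lam) := by rw [← pow_mul, mul_comm]
  have h6 : 2 ^ κ ≤ 2 ^ (κ * lam) :=
    Nat.pow_le_pow_right (by norm_num) (Nat.le_mul_of_pos_right _ (by omega))
  calc 2 ^ κ * ((g + 1) * lam ^ 2) ≤ 2 ^ (κ * lam) * (2 ^ (2 * lam) * 2 ^ (2 * lam)) :=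
        Nat.mul_le_mul h6 (Nat.mul_le_mul h3 h5)
    _ = 2 ^ ((κ + 4) * lam) := by
        rw [← pow_add, ← pow_add]
        congr 1
        ring

theorem params2_aux (x k : ℕ) : x ^ k * (x + k) ≤ x * (x + 1) ^ k := by
  induction k with
  | zero => simp
  | succ k ih =>
    calc x ^ (k + 1) * (x + (k + 1)) = x ^ (k + 1) * (x + k) + x ^ k * x := by ring
      _ ≤ x ^ (k + 1) * (x + k) + x ^ k * (x + k) := by
          gcongr
          omega
      _ = (x + 1) * (x ^ k * (x + k)) := by ring
      _ ≤ (x + 1) * (x * (x + 1) ^ k) := by gcongr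
      _ = x * (x + 1) ^ (k + 1) := by ring

theorem params2 (b m ρ : ℕ) (hb : 2 ≤ b) (hρ : ρ ≤ 2^m) : ρ * (b-1)^(b*m) ≤ b^(b*m) := by
  obtain ⟨x, rfl⟩ : ∃ x, b = x + 1 := ⟨b - 1, by omega⟩
  have hx : 0 < x := by omega
  rw [Nat.add_sub_cancel]
  have h1 : 2 * x ^ (x + 1) ≤ (x + 1) ^ (x + 1) := by
    have h := params2_aux x (x + 1)
    apply Nat.le_of_mul_le_mul_left _ hx
    calc x * (2 * x ^ (x + 1)) = x ^ (x + 1) * (x + x) := by ring
      _ ≤ x ^ (x + 1) * (x + (x + 1)) := by
          gcongr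
          omega
      _ ≤ _ := h
  calc ρ * x ^ ((x + 1) * m) ≤ 2 ^ m * x ^ ((x + 1) * m) := by gcongr
    _ = (2 * x ^ (x + 1)) ^ m := by rw [mul_pow, pow_mul]
    _ ≤ ((x + 1) ^ (x + 1)) ^ m := Nat.pow_le_pow_left h1 m
    _ = (x + 1) ^ ((x + 1) * m) := by rw [pow_mul]

theorem params3 (C : ℕ) : ∃ κ : ℕ, 48 * C * (κ+4)^2 < 2^κ := by
  have h := tendsto_pow_const_div_const_pow_of_one_lt 2 (r := (2 : ℝ)) (by norm_num)
  have h1 : ∀ᶠ n : ℕ in Filter.atTop, (n : ℝ) ^ 2 / (2 : ℝ) ^ n < 1 / (48 * C * 16 + 1) :=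
    h.eventually (gt_mem_nhds (by positivity))
  obtain ⟨n, hn, hn4⟩ := (h1.and (Filter.eventually_ge_atTop 4)).exists
  obtain ⟨κ, rfl⟩ : ∃ κ, n = κ + 4 := ⟨n - 4, by omega⟩
  refine ⟨κ, ?_⟩
  rw [div_lt_div_iff₀ (by positivity) (by positivity), one_mul] at hn
  have h2 : ((κ + 4 : ℕ) : ℝ) ^ 2 * (48 * C * 16 + 1) < (2 : ℝ) ^ κ * 16 := by
    have : (2 : ℝ) ^ (κ + 4) = 2 ^ κ * 16 := by rw [pow_add]; norm_num
    rw [this] at hn
    exact hn
  have h3 : (κ + 4) ^ 2 * (48 * C * 16 + 1) < 2 ^ κ * 16 := by exact_mod_cast h2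
  nlinarith [sq_nonneg (κ + 4)]


theorem ic_le_choose (F : SimpleGraph V) (A : Finset V) (n : ℕ) : ic F A n ≤ A.card.choose n := by
  unfold ic
  calc _ ≤ (A.powersetCard n).card := card_filter_le _ _
    _ = _ := card_powersetCard _ _

theorem card_rest (F : SimpleGraph V) (A : Finset V) (v : V) (hv : v ∈ A) :
    ((A.erase v).filter (fun w => ¬ F.Adj v w)).card + dg F A v + 1 = A.card := by
  have h1 : (A.erase v).card + 1 = A.card := card_erase_add_one hv
  have h2 : ((A.erase v).filter (fun w => F.Adj v w)).card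
      + ((A.erase v).filter (fun w => ¬ F.Adj v w)).card = (A.erase v).card :=
    card_filter_add_card_filter_not _
  have h3 : (A.erase v).filter (fun w => F.Adj v w) = A.filter (fun w => F.Adj v w) := by
    ext w
    simp only [mem_filter, mem_erase]
    constructor
    · rintro ⟨⟨_, h⟩, h'⟩; exact ⟨h, h'⟩
    · rintro ⟨h, h'⟩; exact ⟨⟨fun e => by subst e; exact F.loopless.irrefl _ h', h⟩, h'⟩
  rw [h3] at h2
  unfold dg
  omega

theorem count (F : SimpleGraph V) (R b : ℕ) (hb : 1 ≤ b) (A0 : Finset V)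
    (h : ∀ A, A ⊆ A0 → R < A.card → ∃ v ∈ A, A.card ≤ b * dg F A v) :
    ∀ (a : ℕ) (A : Finset V), A ⊆ A0 → A.card = a → ∀ (t n : ℕ),
      A.card * (b-1)^t ≤ R * b^t →
      ic F A n ≤ ∑ j ∈ range (t+1), A.card.choose j * (if j ≤ n then R.choose (n-j) else 0) := by
  intro a
  induction a using Nat.strong_induction_on with
  | _ a ih =>
    intro A hA hAa t n ht
    by_cases hR : A.card ≤ R
    · calc ic F A n ≤ A.card.choose n := ic_le_choose F A n
        _ ≤ R.choose n := Nat.choose_le_choose n hR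
        _ = A.card.choose 0 * (if 0 ≤ n then R.choose (n-0) else 0) := by simp
        _ ≤ _ := Finset.single_le_sum (f := fun j => A.card.choose j *
              (if j ≤ n then R.choose (n-j) else 0)) (fun _ _ => Nat.zero_le _) (by simp)
    · push_neg at hR
      obtain _ | t := t
      · exfalso; simp at ht; omega
      obtain _ | n := n
      · calc ic F A 0 ≤ A.card.choose 0 := ic_le_choose F A 0
          _ = A.card.choose 0 * (if 0 ≤ 0 then R.choose (0-0) else 0) := by simp
          _ ≤ _ := Finset.single_le_sum (f := fun j => A.card.choose j *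
              (if j ≤ 0 then R.choose (0-j) else 0)) (fun _ _ => Nat.zero_le _) (by simp)
      obtain ⟨v, hv, hdeg⟩ := h A hA hR
      set B := (A.erase v).filter (fun w => ¬ F.Adj v w) with hB
      have hcard : B.card + dg F A v + 1 = A.card := card_rest F A v hv
      have hBsub : B ⊆ A0 := fun x hx => hA (mem_of_mem_erase (mem_of_mem_filter x hx))
      have hE : (A.erase v).card + 1 = A.card := card_erase_add_one hv
      have h1 := ih (A.erase v).card (by omega) (A.erase v)
        (fun x hx => hA (mem_of_mem_erase hx)) rfl (t+1) (n+1)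
        (le_trans (Nat.mul_le_mul_right _ (by omega)) ht)
      have hbB : b * B.card ≤ (b-1) * A.card := by
        have : b * A.card = (b-1) * A.card + A.card := by
          obtain ⟨c, rfl⟩ : ∃ c, b = c + 1 := ⟨b-1, by omega⟩
          simp; ring
        have h5 : b * B.card + b * dg F A v + b = b * A.card := by rw [← hcard]; ring
        omega
      have hcond : B.card * (b-1)^t ≤ R * b^t := by
        have : b * (B.card * (b-1)^t) ≤ b * (R * b^t) := by
          calc b * (B.card * (b-1)^t) = (b * B.card) * (b-1)^t := by ring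
            _ ≤ ((b-1) * A.card) * (b-1)^t := Nat.mul_le_mul_right _ hbB
            _ = A.card * (b-1)^(t+1) := by ring
            _ ≤ R * b^(t+1) := ht
            _ = _ := by ring
        exact Nat.le_of_mul_le_mul_left this (by omega)
      have h2 := ih B.card (by omega) B hBsub rfl t n hcond
      have hrec := ic_rec F A n v hv
      rw [← hB] at hrec
      obtain ⟨a', ha'⟩ : ∃ a', A.card = a' + 1 := ⟨A.card - 1, by omega⟩
      have hEa : (A.erase v).card = a' := by omega
      have hBa : B.card ≤ a' := by omega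
      rw [hEa] at h1
      have h2' : ic F B n ≤ ∑ j ∈ range (t+1), a'.choose j *
          (if j + 1 ≤ n + 1 then R.choose (n + 1 - (j+1)) else 0) := by
        refine h2.trans (Finset.sum_le_sum fun j _ => ?_)
        have e1 : (if j + 1 ≤ n + 1 then R.choose (n + 1 - (j+1)) else 0)
            = (if j ≤ n then R.choose (n-j) else 0) := by
          simp
        rw [e1]
        exact Nat.mul_le_mul_right _ (Nat.choose_le_choose j hBa)
      rw [ha', Finset.sum_range_succ']
      rw [Finset.sum_range_succ'] at h1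
      have hsum : ∑ j ∈ range (t+1), (a'+1).choose (j+1) *
          (if j + 1 ≤ n + 1 then R.choose (n + 1 - (j+1)) else 0)
          = ∑ j ∈ range (t+1), a'.choose j *
          (if j + 1 ≤ n + 1 then R.choose (n + 1 - (j+1)) else 0)
          + ∑ j ∈ range (t+1), a'.choose (j+1) *
          (if j + 1 ≤ n + 1 then R.choose (n + 1 - (j+1)) else 0) := by
        rw [← Finset.sum_add_distrib]
        refine Finset.sum_congr rfl fun j _ => ?_
        rw [Nat.choose_succ_succ, Nat.add_mul]
      rw [hsum]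
      simp only [Nat.choose_zero_right] at h1 ⊢
      omega


theorem main_bound (k : ℕ) (G : SimpleGraph (Fin k))
    (hG : ∃ C : ℕ, ∀ n N : ℕ, C * n ^ 2 ≤ N → ∀ F : SimpleGraph (Fin N),
          G.IsContained F ∨ (⊤ : SimpleGraph (Fin n)).IsContained Fᶜ) :
    ∃ C : ℕ, ∀ (p g : ℕ) (H : SimpleGraph (Fin p)),
      (∀ S : Finset (Fin p), S.Nonempty → ∃ v ∈ S, (S.filter (fun w => H.Adj v w)).card ≤ g) →
      ∀ N : ℕ, C * (p * (g + 1) * (Nat.log 2 (g + 2)) ^ 2) ≤ N → ∀ F : SimpleGraph (Fin N),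
        G.IsContained F ∨ H.IsContained Fᶜ := by
  obtain ⟨C, hC⟩ := hG
  obtain ⟨κ, hκ⟩ := params3 (C + 1)
  refine ⟨2 ^ (κ + 1), ?_⟩
  intro p g H hH N hN F
  by_cases hp0 : p = 0
  · right
    subst hp0
    exact ⟨⟨⟨fun x => x.elim0, fun {a} => a.elim0⟩, fun x => x.elim0⟩⟩
  have hp : 0 < p := Nat.pos_of_ne_zero hp0
  by_contra hcon
  obtain ⟨hF, hHF⟩ := not_or.mp hcon
  obtain ⟨lam, hlam⟩ : ∃ l, l = Nat.log 2 (g + 2) := ⟨_, rfl⟩
  obtain ⟨hlam1, hρ2⟩ := params1 g κ lam hlam
  rw [← hlam] at hN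
  set m := (κ + 4) * lam with hm
  set b := 2 * (g + 1) with hb
  set t := b * m with ht
  set n := t * m with hn
  set ρ := 2 ^ κ * ((g + 1) * lam ^ 2) with hρ
  set R := 2 * p with hR
  have hm1 : 1 ≤ m := Nat.mul_pos (by omega) (by omega)
  have hb2 : 2 ≤ b := by omega
  have ht1 : 1 ≤ t := Nat.mul_pos (by omega) (by omega)
  have hn1 : 1 ≤ n := Nat.mul_pos (by omega) (by omega)
  have htn : t ≤ n := Nat.le_mul_of_pos_right _ (by omega)
  have hneq : n = (2 * (κ + 4) ^ 2) * ((g + 1) * lam ^ 2) := by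
    rw [hn, ht, hb, hm]; ring
  have hpos : 0 < (g + 1) * lam ^ 2 := Nat.mul_pos (by omega) (pow_pos (by omega) _)
  have hρbig : 24 * (C + 1) * n < ρ := by
    rw [hneq, hρ]
    calc 24 * (C + 1) * ((2 * (κ + 4) ^ 2) * ((g + 1) * lam ^ 2))
        = (48 * (C + 1) * (κ + 4) ^ 2) * ((g + 1) * lam ^ 2) := by ring
      _ < 2 ^ κ * ((g + 1) * lam ^ 2) := Nat.mul_lt_mul_of_pos_right hκ hpos
  have hN0 : ρ * R ≤ N := by
    refine le_trans (le_of_eq ?_) hN
    rw [hρ, hR]; ring
  by_cases hnp : 48 * p < n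
  · -- few vertices: use the clique bound
    have h1 : C * p ^ 2 ≤ N := by
      have h2 : C * p ^ 2 ≤ p * ρ := by
        have : C * p * p ≤ p * ρ := by
          calc C * p * p = p * (C * p) := by ring
            _ ≤ p * ρ := by
              refine Nat.mul_le_mul_left _ ?_
              calc C * p ≤ C * n := Nat.mul_le_mul_left _ (by omega)
                _ ≤ 24 * (C + 1) * n := Nat.mul_le_mul_right _ (by omega)
                _ ≤ ρ := hρbig.le
        calc C * p ^ 2 = C * p * p := by ring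
          _ ≤ _ := this
      calc C * p ^ 2 ≤ p * ρ := h2
        _ ≤ ρ * R := by rw [hR, Nat.mul_comm p ρ]; exact Nat.mul_le_mul_left _ (by omega)
        _ ≤ N := hN0
    rcases hC p N h1 F with h | h
    · exact hF h
    · exact hHF ((SimpleGraph.IsContained.of_le le_top).trans h)
  · have hnp' : n ≤ 24 * R := by omega
    obtain ⟨A0, -, hA0⟩ : ∃ A0 ⊆ (univ : Finset (Fin N)), A0.card = ρ * R :=
      Finset.exists_subset_card_eq (by simpa using hN0)
    have hρ1 : 1 ≤ ρ := by omega
    have hR1 : 1 ≤ R := by omega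
    have hRN : R ≤ A0.card := by rw [hA0]; exact Nat.le_mul_of_pos_left _ (by omega)
    have hden : ∀ A, A ⊆ A0 → R < A.card → ∃ v ∈ A, A.card ≤ b * dg F A v := by
      intro A hA hRA
      by_contra hno
      refine hHF (greedy F A p g H hH (by omega) hp ?_)
      intro v hv
      by_contra hlt
      exact hno ⟨v, hv, by rw [hb]; omega⟩
    have hcnt := count F R b (by omega) A0 hden A0.card A0 (Finset.Subset.refl _) rfl t n (by
      rw [hA0]
      have := params2 b m ρ hb2 hρ2
      calc ρ * R * (b - 1) ^ t = R * (ρ * (b - 1) ^ (b * m)) := by rw [ht]; ring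
        _ ≤ R * b ^ (b * m) := Nat.mul_le_mul_left _ this
        _ = _ := by rw [ht])
    have hest := est A0.card R n t hRN htn
    have hsn : n ≤ (C + 1) * n ^ 2 := by
      calc n = 1 * (n * 1) := by ring
        _ ≤ (C + 1) * (n * n) := Nat.mul_le_mul (by omega) (Nat.mul_le_mul_left _ hn1)
        _ = _ := by ring
    have hsA : (C + 1) * n ^ 2 ≤ A0.card := by
      rw [hA0]
      calc (C + 1) * n ^ 2 = ((C + 1) * n) * n := by ring
        _ ≤ ((C + 1) * n) * (24 * R) := Nat.mul_le_mul_left _ hnp'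
        _ = (24 * (C + 1) * n) * R := by ring
        _ ≤ ρ * R := Nat.mul_le_mul_right _ hρbig.le
    have hdc := dc F A0 n ((C + 1) * n ^ 2) hsn hsA (by
      intro S hS hSc
      exact hypInd G C n (fun N' h => hC n N' h) F hF S (by
        rw [hSc]; exact Nat.mul_le_mul_right _ (by omega)))
    refine arith (C + 1) A0.card R n t m ρ _ hn1 hm1 rfl hA0 hR1 hρ2 ?_ hρbig hest
      (hdc.trans (Nat.mul_le_mul_right _ hcnt))
    rw [hA0]
    calc 2 * n ≤ 24 * (C + 1) * n := Nat.mul_le_mul_right _ (by omega)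
      _ ≤ ρ := hρbig.le
      _ ≤ ρ * R := Nat.le_mul_of_pos_right _ (by omega)

/-- the case of regular graphs, in terms of the number of edges -/
theorem main_regular (k : ℕ) (G : SimpleGraph (Fin k))
    (hG : ∃ C : ℕ, ∀ n N : ℕ, C * n ^ 2 ≤ N → ∀ F : SimpleGraph (Fin N),
          G.IsContained F ∨ (⊤ : SimpleGraph (Fin n)).IsContained Fᶜ) :
    ∃ C : ℕ, ∀ (p d A : ℕ) (H : SimpleGraph (Fin p)),
      (∀ v, (H.neighborSet v).ncard ≤ d) → p * d ≤ A * H.edgeSet.ncard → (∀ v, ∃ w, H.Adj v w) →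
      ∀ N : ℕ, C * (A * H.edgeSet.ncard * (Nat.log 2 (d + 2)) ^ 2) ≤ N →
        ∀ F : SimpleGraph (Fin N), G.IsContained F ∨ H.IsContained Fᶜ := by
  obtain ⟨C, hC⟩ := main_bound k G hG
  refine ⟨2 * C, ?_⟩
  intro p d A H hd hpd hiso N hN F
  refine hC p d H ?_ N (le_trans ?_ hN) F
  · intro S hS
    obtain ⟨v, hv⟩ := hS
    refine ⟨v, hv, ?_⟩
    calc (S.filter (fun w => H.Adj v w)).card
        = (↑(S.filter (fun w => H.Adj v w)) : Set (Fin p)).ncard := (Set.ncard_coe_finset _).symm
      _ ≤ (H.neighborSet v).ncard := by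
        refine Set.ncard_le_ncard ?_ (Set.toFinite _)
        intro w hw
        simp at hw
        exact hw.2
      _ ≤ d := hd v
  · by_cases hp0 : p = 0
    · subst hp0; simp
    have hd1 : 1 ≤ d := by
      obtain ⟨w, hw⟩ := hiso ⟨0, Nat.pos_of_ne_zero hp0⟩
      refine le_trans ?_ (hd ⟨0, Nat.pos_of_ne_zero hp0⟩)
      exact Nat.one_le_iff_ne_zero.mpr (Set.ncard_ne_zero_of_mem (a := w) hw)
    have : p * (d + 1) ≤ 2 * (A * H.edgeSet.ncard) := by
      calc p * (d + 1) ≤ p * (2 * d) := Nat.mul_le_mul_left _ (by omega)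
        _ = 2 * (p * d) := by ring
        _ ≤ _ := Nat.mul_le_mul_left _ hpd
    calc C * (p * (d + 1) * (Nat.log 2 (d + 2)) ^ 2)
        ≤ C * ((2 * (A * H.edgeSet.ncard)) * (Nat.log 2 (d + 2)) ^ 2) :=
          Nat.mul_le_mul_left _ (Nat.mul_le_mul_right _ this)
      _ = _ := by ring


end Pool.Agent.Helper830.KW
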